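import Pool.Agent.Q202.IS.Mat

set_option autoImplicit false
set_option linter.unusedSectionVars false

/-! Isometries of positive definite forms have their Whitehead torsion on the infinite part. -/

namespace Pool.Agent.Q202.IS

open TH57.Thr MonoidAlgebra Pool.Agent.Y75.SV Pool.Agent.Y75.EK Pool.Agent.Q202.KS

variable {G : Type} [Group G] {M : Type} [AddCommGroup M] [Module (MonoidAlgebra ℤ G) M]

theorem map_perp (φ : HermForm G M) (α : M ≃ₗ[MonoidAlgebra ℤ G] M)
    (hα : ∀ x y, φ.val (α x) (α y) = φ.val x y) :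
    (perp φ φ.finPart).map α.toLinearMap = perp φ φ.finPart := by
  have hF := finPart_map_eq α hα
  have h1 : ∀ x, α x ∈ perp φ φ.finPart ↔ x ∈ perp φ φ.finPart := by
    intro x
    rw [mem_perp, mem_perp]
    constructor
    · intro h z hz
      rw [← hα]
      apply h
      rw [← hF]
      exact ⟨z, hz, rfl⟩
    · intro h z hz
      rw [← hF] at hz
      obtain ⟨w, hw, rfl⟩ := hz
      exact (hα x w).trans (h w hw)
  ext y
  constructor
  · rintro ⟨x, hx, rfl⟩
    exact (h1 x).2 hx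
  · intro hy
    refine ⟨α.symm y, ?_, α.apply_symm_apply y⟩
    apply (h1 _).1
    rwa [α.apply_symm_apply]

section split

variable {F P : Submodule (MonoidAlgebra ℤ G) M} (hc : IsCompl F P)

/-- the automorphism which is `a` on `F` and the identity on `P` -/
noncomputable def ext1 (a : F ≃ₗ[MonoidAlgebra ℤ G] F) : M ≃ₗ[MonoidAlgebra ℤ G] M :=
  ((Submodule.prodEquivOfIsCompl F P hc).symm.trans (a.prodCongr (LinearEquiv.refl _ P))).trans
    (Submodule.prodEquivOfIsCompl F P hc)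

/-- the automorphism which is the identity on `F` and `c` on `P` -/
noncomputable def ext2 (c : P ≃ₗ[MonoidAlgebra ℤ G] P) : M ≃ₗ[MonoidAlgebra ℤ G] M :=
  ((Submodule.prodEquivOfIsCompl F P hc).symm.trans ((LinearEquiv.refl _ F).prodCongr c)).trans
    (Submodule.prodEquivOfIsCompl F P hc)

theorem ext1_apply (a : F ≃ₗ[MonoidAlgebra ℤ G] F) (x : F) (y : P) :
    ext1 hc a (x + y) = a x + y := by
  have h1 : (x : M) + y = Submodule.prodEquivOfIsCompl F P hc (x, y) := by
    rw [Submodule.coe_prodEquivOfIsCompl']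
  rw [h1]
  change Submodule.prodEquivOfIsCompl F P hc ((a.prodCongr (LinearEquiv.refl _ P))
    ((Submodule.prodEquivOfIsCompl F P hc).symm (Submodule.prodEquivOfIsCompl F P hc (x, y)))) = _
  rw [LinearEquiv.symm_apply_apply, LinearEquiv.prodCongr_apply,
    Submodule.coe_prodEquivOfIsCompl']
  rfl

theorem ext2_apply (c : P ≃ₗ[MonoidAlgebra ℤ G] P) (x : F) (y : P) :
    ext2 hc c (x + y) = x + c y := by
  have h1 : (x : M) + y = Submodule.prodEquivOfIsCompl F P hc (x, y) := by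
    rw [Submodule.coe_prodEquivOfIsCompl']
  rw [h1]
  change Submodule.prodEquivOfIsCompl F P hc (((LinearEquiv.refl _ F).prodCongr c)
    ((Submodule.prodEquivOfIsCompl F P hc).symm (Submodule.prodEquivOfIsCompl F P hc (x, y)))) = _
  rw [LinearEquiv.symm_apply_apply, LinearEquiv.prodCongr_apply,
    Submodule.coe_prodEquivOfIsCompl']
  rfl

/-- `M ⊕ R^k` is `F ⊕ M` if `F` is free of rank `k` -/
noncomputable def theta {k : ℕ} (b : Module.Basis (Fin k) (MonoidAlgebra ℤ G) F) :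
    (M × (Fin k → MonoidAlgebra ℤ G)) ≃ₗ[MonoidAlgebra ℤ G] (F × M) :=
  ((((Submodule.prodEquivOfIsCompl F P hc).symm.prodCongr b.equivFun.symm).trans
    (LinearEquiv.prodAssoc _ F P F)).trans
    ((LinearEquiv.refl _ F).prodCongr (LinearEquiv.prodComm _ P F))).trans
    ((LinearEquiv.refl _ F).prodCongr (Submodule.prodEquivOfIsCompl F P hc))

theorem TT_ext1 (U : Subgroup (MonoidAlgebra ℤ G)ˣ) {ι : Type} [Fintype ι] [DecidableEq ι]
    (e : Module.Basis ι (MonoidAlgebra ℤ G) M) {k : ℕ}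
    (b : Module.Basis (Fin k) (MonoidAlgebra ℤ G) F) (a : F ≃ₗ[MonoidAlgebra ℤ G] F)
    (h : TT U (matU b a)) : TT U (matU e (ext1 hc a)) := by
  apply TT_unst (μ := Fin k)
  rw [← matU_prod e (Pi.basisFun (MonoidAlgebra ℤ G) (Fin k))]
  apply TT_change U (ibn G) _ ((b.prod e).map (theta hc b).symm)
  rw [matU_map (b.prod e) (theta hc b).symm (a.prodCongr (LinearEquiv.refl _ M)) _ ?_, matU_prod]
  · exact TT_st U _ h
  · rintro x
    rw [LinearEquiv.symm_apply_eq]
    obtain ⟨⟨m, v⟩, rfl⟩ := (theta hc b).surjective x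
    rw [LinearEquiv.symm_apply_apply]
    obtain ⟨⟨f, p⟩, rfl⟩ := (Submodule.prodEquivOfIsCompl F P hc).surjective m
    simp only [theta, ext1, LinearEquiv.trans_apply, LinearEquiv.prodCongr_apply,
      LinearEquiv.symm_apply_apply, LinearEquiv.refl_apply, LinearEquiv.prodAssoc_apply,
      LinearEquiv.prodComm_apply]
    rfl

end split

/-- an automorphism given by an integral matrix with rows multiplied by group elements -/
theorem TT_monomial (htf : ∀ g : G, ∀ n : ℕ, 0 < n → g ^ n = 1 → g = 1) {k : ℕ}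
    (b : Module.Basis (Fin k) (MonoidAlgebra ℤ G) M) (a : M ≃ₗ[MonoidAlgebra ℤ G] M)
    (g : Fin k → G) (U : Matrix (Fin k) (Fin k) ℤ) (hU : IsUnit U)
    (h : ∀ i, a (b i) = ∑ j, (single (g i) (U i j) : MonoidAlgebra ℤ G) • b j) :
    TT (TU G) (matU b a) := by
  obtain ⟨u, rfl⟩ := hU
  have h1 : matU b a = dgu g * Units.map (mpm (Int.castRingHom (MonoidAlgebra ℤ G))) u := by
    apply Units.ext
    ext1 i j
    change b.repr (a (b i)) j = (((Matrix.diagonal fun i => (single (g i) 1 : MonoidAlgebra ℤ G))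
      * (RingHom.mapMatrix (Int.castRingHom (MonoidAlgebra ℤ G)) (u : Matrix (Fin k) (Fin k) ℤ)) :
        Matrix (Fin k) (Fin k) (MonoidAlgebra ℤ G)) i j)
    rw [Matrix.diagonal_mul, h]
    simp only [map_sum, map_smul, Finsupp.finsetSum_apply, Finsupp.smul_apply, smul_eq_mul,
      Module.Basis.repr_self, RingHom.mapMatrix_apply, Matrix.map_apply, Int.coe_castRingHom]
    rw [int_single, single_mul_single, one_mul, mul_one, Finset.sum_eq_single j]
    · rw [Finsupp.single_eq_same, mul_one]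
    · intro l _ hl
      rw [Finsupp.single_eq_of_ne hl.symm, mul_zero]
    · intro hj; exact absurd (Finset.mem_univ j) hj
  rw [h1]
  exact TT_mul _ _ _ (TT_dgu htf g) (TT_im u)

theorem main (htf : ∀ g : G, ∀ n : ℕ, 0 < n → g ^ n = 1 → g = 1)
    (φ : HermForm G M) (hpos : φ.Pos) {ι : Type} [Fintype ι] [DecidableEq ι]
    (e : Module.Basis ι (MonoidAlgebra ℤ G) M) (α : M ≃ₗ[MonoidAlgebra ℤ G] M)
    (hα : ∀ x y, φ.val (α x) (α y) = φ.val x y) :
    ∃ β γ : M ≃ₗ[MonoidAlgebra ℤ G] M, α = γ.trans β ∧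
      (∀ x, (∀ z ∈ φ.finPart, φ.val x z = 0) → β x = x) ∧ (∀ x ∈ φ.finPart, γ x = x) ∧
      (∀ x y, φ.val (β x) (β y) = φ.val x y) ∧ (∀ x y, φ.val (γ x) (γ y) = φ.val x y) ∧
      TT (TU G) (matU e β) := by
  have : Module.Finite (MonoidAlgebra ℤ G) M := Module.Finite.of_basis e
  have : Module.Free (MonoidAlgebra ℤ G) M := Module.Free.of_basis e
  obtain ⟨k, b, A, hb, hA, hsplit, hiso, _⟩ := main_fin
    (fun g n hn => htf g n (Nat.pos_of_ne_zero hn)) φ hpos
  obtain ⟨g, U, hU, hgU⟩ := hiso α hα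
  have hc := isCompl_perp φ hpos φ.finPart hsplit
  have hF := finPart_map_eq α hα
  have hP := map_perp φ α hα
  let a : φ.finPart ≃ₗ[MonoidAlgebra ℤ G] φ.finPart := α.ofSubmodules _ _ hF
  let c : perp φ φ.finPart ≃ₗ[MonoidAlgebra ℤ G] perp φ φ.finPart := α.ofSubmodules _ _ hP
  have ha : ∀ x, ((a x : φ.finPart) : M) = α x := fun x => rfl
  have hcc : ∀ x, ((c x : perp φ φ.finPart) : M) = α x := fun x => rfl
  have hsum : ∀ m : M, ∃ (x : φ.finPart) (y : perp φ φ.finPart), m = x + y := by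
    intro m
    obtain ⟨p, hp⟩ := (Submodule.prodEquivOfIsCompl _ _ hc).surjective m
    exact ⟨p.1, p.2, by rw [← hp, Submodule.coe_prodEquivOfIsCompl']⟩
  have horth : ∀ (x : φ.finPart) (y : perp φ φ.finPart), φ.val (x : M) y = 0 := fun x y =>
    val_zero_symm φ (y.2 x x.2)
  have horth' : ∀ (x : φ.finPart) (y : perp φ φ.finPart), φ.val (y : M) x = 0 := fun x y =>
    y.2 x x.2
  refine ⟨ext1 hc a, ext2 hc c, ?_, ?_, ?_, ?_, ?_, ?_⟩
  · ext m
    obtain ⟨x, y, rfl⟩ := hsum m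
    rw [LinearEquiv.trans_apply, ext2_apply, ext1_apply, ha, hcc, map_add]
  · intro x hx
    have h1 := ext1_apply hc a 0 ⟨x, hx⟩
    simpa using h1
  · intro x hx
    have h1 := ext2_apply hc c ⟨x, hx⟩ 0
    simpa using h1
  · intro m n
    obtain ⟨x, y, rfl⟩ := hsum m
    obtain ⟨x', y', rfl⟩ := hsum n
    rw [ext1_apply, ext1_apply, φ.add_left, φ.add_right, φ.add_right, φ.add_left, φ.add_right,
      φ.add_right, horth, horth', horth, horth', ha, ha, hα]
  · intro m n
    obtain ⟨x, y, rfl⟩ := hsum m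
    obtain ⟨x', y', rfl⟩ := hsum n
    rw [ext2_apply, ext2_apply, φ.add_left, φ.add_right, φ.add_right, φ.add_left, φ.add_right,
      φ.add_right, horth, horth', horth, horth', hcc, hcc, hα]
  · apply TT_ext1 hc _ e b a
    refine TT_monomial htf b a g U hU fun i => ?_
    apply Subtype.ext
    rw [ha, hgU i]
    simp

theorem main_top (htf : ∀ g : G, ∀ n : ℕ, 0 < n → g ^ n = 1 → g = 1)
    (φ : HermForm G M) (hpos : φ.Pos) (htop : φ.finPart = ⊤) {ι : Type} [Fintype ι]
    [DecidableEq ι] (e : Module.Basis ι (MonoidAlgebra ℤ G) M) (α : M ≃ₗ[MonoidAlgebra ℤ G] M)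
    (hα : ∀ x y, φ.val (α x) (α y) = φ.val x y) : TT (TU G) (matU e α) := by
  obtain ⟨β, γ, h1, _, h3, _, _, h6⟩ := main htf φ hpos e α hα
  have h4 : α = β := by
    ext x
    rw [h1, LinearEquiv.trans_apply, h3 x (by rw [htop]; exact Submodule.mem_top)]
  rw [h4]
  exact h6

end Pool.Agent.Q202.IS
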