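import Pool.Agent.TH57.Thr.Asm
import Pool.Agent.Q202.KS.Split

set_option autoImplicit false
set_option linter.unusedSectionVars false

/-! Matrices of automorphisms and their classes in the Whitehead group. -/

namespace Pool.Agent.Q202.IS

open TH57.Thr

section general

variable {R : Type} [Ring R] {M : Type} [AddCommGroup M] [Module R M]
  {ι κ : Type} [Fintype ι] [DecidableEq ι] [Fintype κ] [DecidableEq κ]

/-- The matrix of an automorphism of a left module: row `i` has the coordinates of the image of the
`i`-th element of the basis. -/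
noncomputable def mat (e : Module.Basis ι R M) (β : M ≃ₗ[R] M) : Matrix ι ι R :=
  Matrix.of fun i j => e.repr (β (e i)) j

/-- coordinates of one basis in the other -/
noncomputable def chg (e : Module.Basis ι R M) (f : Module.Basis κ R M) : Matrix ι κ R :=
  Matrix.of fun i j => f.repr (e i) j

theorem chg_mul_chg {μ : Type} [Fintype μ] [DecidableEq μ] (e : Module.Basis ι R M)
    (f : Module.Basis κ R M) (g : Module.Basis μ R M) : chg e f * chg f g = chg e g := by
  ext i m
  rw [Matrix.mul_apply]
  change ∑ j, f.repr (e i) j * g.repr (f j) m = g.repr (e i) m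
  have h := congrArg (fun x => g.repr x m) (f.sum_repr (e i))
  simp only [map_sum, map_smul, Finsupp.finsetSum_apply, Finsupp.smul_apply, smul_eq_mul] at h
  exact h

theorem chg_self (e : Module.Basis ι R M) : chg e e = 1 := by
  ext i j
  change e.repr (e i) j = _
  rw [e.repr_self, Finsupp.single_apply, Matrix.one_apply]

theorem chg_map {N : Type} [AddCommGroup N] [Module R N] (e : Module.Basis ι R M)
    (f : Module.Basis κ R M) (α : M ≃ₗ[R] N) : chg (e.map α) (f.map α) = chg e f := by
  ext i j
  change (f.map α).repr (e.map α i) j = f.repr (e i) j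
  simp

theorem mat_eq (e : Module.Basis ι R M) (β : M ≃ₗ[R] M) : mat e β = chg (e.map β) e := by
  ext i j
  simp [mat, chg]

/-- the matrix as a unit -/
noncomputable def matU (e : Module.Basis ι R M) (β : M ≃ₗ[R] M) : (Matrix ι ι R)ˣ where
  val := mat e β
  inv := chg e (e.map β)
  val_inv := by rw [mat_eq, chg_mul_chg, chg_self]
  inv_val := by rw [mat_eq, chg_mul_chg, chg_self]

theorem matU_val (e : Module.Basis ι R M) (β : M ≃ₗ[R] M) : (matU e β).val = mat e β := rfl

/-- change of basis -/
theorem matU_conj (e f : Module.Basis ι R M) (β : M ≃ₗ[R] M) :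
    ∃ P : (Matrix ι ι R)ˣ, matU e β = P * matU f β * P⁻¹ := by
  refine ⟨⟨chg e f, chg f e, by rw [chg_mul_chg, chg_self], by rw [chg_mul_chg, chg_self]⟩, ?_⟩
  apply Units.ext
  change mat e β = chg e f * mat f β * chg f e
  rw [mat_eq, mat_eq, ← chg_map e f β, chg_mul_chg, chg_mul_chg]

theorem matU_reindex (f : Module.Basis κ R M) (σ : κ ≃ ι) (β : M ≃ₗ[R] M) :
    matU (f.reindex σ) β = Units.map (re σ.symm) (matU f β) := by
  apply Units.ext
  ext i j
  change (f.reindex σ).repr (β ((f.reindex σ) i)) j = f.repr (β (f (σ.symm i))) (σ.symm j)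
  simp

theorem TT_change (U : Subgroup Rˣ) (hI : InvariantBasisNumber R) (e : Module.Basis ι R M)
    (f : Module.Basis κ R M) (β : M ≃ₗ[R] M) (h : TT U (matU f β)) : TT U (matU e β) := by
  let σ : κ ≃ ι := f.indexEquiv e
  obtain ⟨P, hP⟩ := matU_conj e (f.reindex σ) β
  rw [hP]
  apply TT_conj
  rw [matU_reindex]
  exact TT_re U σ.symm _ h

theorem matU_map {N : Type} [AddCommGroup N] [Module R N] (e : Module.Basis ι R M)
    (Θ : M ≃ₗ[R] N) (β : M ≃ₗ[R] M) (γ : N ≃ₗ[R] N) (h : ∀ x, Θ (β x) = γ (Θ x)) :
    matU (e.map Θ) γ = matU e β := by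
  apply Units.ext
  ext i j
  change (e.map Θ).repr (γ (e.map Θ i)) j = e.repr (β (e i)) j
  rw [Module.Basis.map_apply, ← h, Module.Basis.map_repr]
  simp

/-- automorphisms of a product which are the identity on the second factor -/
theorem matU_prod {N : Type} [AddCommGroup N] [Module R N] (e : Module.Basis ι R M)
    (f : Module.Basis κ R N) (β : M ≃ₗ[R] M) :
    matU (e.prod f) (β.prodCongr (LinearEquiv.refl R N)) = Units.map (stm κ) (matU e β) := by
  apply Units.ext
  ext (i | i) (j | j)
  · change (e.prod f).repr ((β.prodCongr (LinearEquiv.refl R N)) ((e.prod f) (Sum.inl i)))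
      (Sum.inl j) = e.repr (β (e i)) j
    simp
  · change (e.prod f).repr ((β.prodCongr (LinearEquiv.refl R N)) ((e.prod f) (Sum.inl i)))
      (Sum.inr j) = 0
    simp
  · change (e.prod f).repr ((β.prodCongr (LinearEquiv.refl R N)) ((e.prod f) (Sum.inr i)))
      (Sum.inl j) = 0
    simp
  · change (e.prod f).repr ((β.prodCongr (LinearEquiv.refl R N)) ((e.prod f) (Sum.inr i)))
      (Sum.inr j) = (1 : Matrix κ κ R) i j
    simp [Finsupp.single_apply, Matrix.one_apply]

end general

/-- integral group rings have invariant basis number -/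
theorem ibn (G : Type) [Group G] : InvariantBasisNumber (MonoidAlgebra ℤ G) := by
  rw [invariantBasisNumber_iff_matrix]
  intro n m f g hfg hgf
  have h1 : (f.map (KS.aug G)) * (g.map (KS.aug G)) = 1 := by
    rw [← Matrix.map_mul, hfg, Matrix.map_one _ (map_zero _) (map_one _)]
  have h2 : (g.map (KS.aug G)) * (f.map (KS.aug G)) = 1 := by
    rw [← Matrix.map_mul, hgf, Matrix.map_one _ (map_zero _) (map_one _)]
  exact invariantBasisNumber_iff_matrix.1 inferInstance n m _ _ h1 h2

end Pool.Agent.Q202.IS
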